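import Pool.Agent.Helper82.Hf9

/-!
Library Y815.HF (helper815): comparison of Jacobians for vector fields of variable length.
-/

set_option autoImplicit false

namespace Pool.Agent.Y815.HF

open Pool.Agent.Helper82.Hf (det_rank det_nonneg')

variable {W : Type*} [NormedAddCommGroup W] [InnerProductSpace ℝ W] [FiniteDimensional ℝ W]

theorem inj_of_pos {S : W →L[ℝ] W} (hpos : ∀ u, ‖u‖ ^ 2 ≤ (inner ℝ (S u) u : ℝ)) :
    Function.Injective (S : W →ₗ[ℝ] W) := by
  rw [injective_iff_map_eq_zero]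
  intro u hu
  have h1 := hpos u
  rw [show S u = 0 from hu, inner_zero_left] at h1
  have : ‖u‖ = 0 := by nlinarith [norm_nonneg u]
  exact norm_eq_zero.mp this

/-- determinant of `T' + x wᵗ + w xᵗ` for an eigenvector `x` of `T'` orthogonal to `w` -/
theorem det_cross {T' T : W →L[ℝ] W} (hS : ∀ u v, (inner ℝ (T' u) v : ℝ) = inner ℝ u (T' v))
    (hpos : ∀ u, ‖u‖ ^ 2 ≤ (inner ℝ (T' u) u : ℝ)) {x w : W} {c : ℝ} (hc : 0 < c)
    (hxx : (inner ℝ x x : ℝ) = 1) (hx : T' x = c • x) (hxw : (inner ℝ x w : ℝ) = 0)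
    (hT : ∀ u, T u = T' u + (inner ℝ x u : ℝ) • w + (inner ℝ w u : ℝ) • x) (h0 : 0 < T'.det) :
    T.det ≤ T'.det ∧ (T'.det ≤ T.det → w = 0) := by
  obtain ⟨q, hq⟩ := LinearMap.surjective_of_injective (inj_of_pos hpos) w
  have hq' : T' q = w := hq
  have hxq : (inner ℝ x q : ℝ) = 0 := by
    have h1 := hS x q
    rw [hx, inner_smul_left, hq', hxw] at h1
    simpa [hc.ne'] using h1
  have hwx : (inner ℝ w x : ℝ) = 0 := by rw [real_inner_comm]; exact hxw
  have h1 : (T : W →ₗ[ℝ] W) = (T' : W →ₗ[ℝ] W) ∘ₗ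
      (LinearMap.transvection (innerₛₗ ℝ x) q) ∘ₗ (LinearMap.transvection (innerₛₗ ℝ w) (-(c⁻¹ • q))) ∘ₗ
        (LinearMap.transvection (innerₛₗ ℝ w) (c⁻¹ • x)) := by
    refine LinearMap.ext fun u => ?_
    have hcc : c⁻¹ * c = 1 := inv_mul_cancel₀ hc.ne'
    have e1 : (LinearMap.transvection (innerₛₗ ℝ w) (c⁻¹ • x)) u = u + (inner ℝ w u : ℝ) • c⁻¹ • x := rfl
    have e2 : ∀ z, (LinearMap.transvection (innerₛₗ ℝ w) (-(c⁻¹ • q))) z = z + (inner ℝ w z : ℝ) • -(c⁻¹ • q) :=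
      fun z => rfl
    have e3 : ∀ z, (LinearMap.transvection (innerₛₗ ℝ x) q) z = z + (inner ℝ x z : ℝ) • q := fun z => rfl
    rw [LinearMap.comp_apply, LinearMap.comp_apply, LinearMap.comp_apply, e1, e2, e3]
    simp only [ContinuousLinearMap.coe_coe, inner_add_right, inner_smul_right, inner_neg_right, hxq, hwx,
      mul_zero, add_zero, neg_zero, map_add, map_smul, map_neg, hq', hx, hT, smul_neg, hxx, mul_one]
    match_scalars <;> first | (field_simp; done) | (field_simp; ring)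
  have hdet : T.det = T'.det * (1 - c⁻¹ * inner ℝ w q) := by
    show LinearMap.det (T : W →ₗ[ℝ] W) = LinearMap.det (T' : W →ₗ[ℝ] W) * _
    rw [h1, LinearMap.det_comp, LinearMap.det_comp, LinearMap.det_comp, LinearMap.transvection.det,
      LinearMap.transvection.det, LinearMap.transvection.det]
    simp only [innerₛₗ_apply_apply, inner_smul_right, inner_neg_right, hxq, hwx]
    ring
  have hwq : ‖q‖ ^ 2 ≤ (inner ℝ w q : ℝ) := by
    have := hpos q
    rwa [hq'] at this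
  have hci : 0 < c⁻¹ := inv_pos.mpr hc
  have hnn : 0 ≤ c⁻¹ * (inner ℝ w q : ℝ) := mul_nonneg hci.le (le_trans (by positivity) hwq)
  refine ⟨?_, fun hle => ?_⟩
  · rw [hdet]
    nlinarith
  · rw [hdet] at hle
    have h2 : c⁻¹ * (inner ℝ w q : ℝ) ≤ 0 := by
      by_contra hcon
      push Not at hcon
      nlinarith [mul_pos h0 hcon]
    have h3 : (inner ℝ w q : ℝ) ≤ 0 := by
      by_contra hcon
      push Not at hcon
      nlinarith [mul_pos hci hcon]
    have h4 : ‖q‖ = 0 := by nlinarith [norm_nonneg q]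
    rw [← hq', norm_eq_zero.mp h4, map_zero]

/-- comparison of the two Jacobians, for fields of variable length -/
theorem det_compare' {A L : W →L[ℝ] W} {x V : W} (hx : ‖x‖ = 1) (hxV : (inner ℝ x V : ℝ) = 0)
    (hA : ∀ u, A u = L u + (inner ℝ x u : ℝ) • V - (inner ℝ V u : ℝ) • x)
    (hLx : L x = 0) (hxL : ∀ u, (inner ℝ x (L u) : ℝ) = 0) :
    (ContinuousLinearMap.id ℝ W + A.adjoint ∘L A).det ≤
      (1 + ‖V‖ ^ 2) ^ 2 * (ContinuousLinearMap.id ℝ W + L.adjoint ∘L L).det ∧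
    ((1 + ‖V‖ ^ 2) ^ 2 * (ContinuousLinearMap.id ℝ W + L.adjoint ∘L L).det ≤
      (ContinuousLinearMap.id ℝ W + A.adjoint ∘L A).det → ∀ u, (inner ℝ V (L u) : ℝ) = 0) := by
  set S : W →L[ℝ] W := ContinuousLinearMap.id ℝ W + L.adjoint ∘L L with hSdef
  have hSi : ∀ u v, (inner ℝ (S u) v : ℝ) = inner ℝ u v + inner ℝ (L u) (L v) := by
    intro u v
    rw [hSdef, ContinuousLinearMap.add_apply, inner_add_left, ContinuousLinearMap.id_apply,
      ContinuousLinearMap.comp_apply, ContinuousLinearMap.adjoint_inner_left]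
  have hSs : ∀ u v, (inner ℝ (S u) v : ℝ) = inner ℝ u (S v) := by
    intro u v
    rw [hSi, real_inner_comm (S v) u, hSi, real_inner_comm v u, real_inner_comm (L v) (L u)]
  have hpos : ∀ u, ‖u‖ ^ 2 ≤ (inner ℝ (S u) u : ℝ) := by
    intro u
    rw [hSi, real_inner_self_eq_norm_sq, real_inner_self_eq_norm_sq]
    nlinarith [norm_nonneg (L u)]
  have hSx : S x = x := by
    rw [hSdef, ContinuousLinearMap.add_apply, ContinuousLinearMap.comp_apply, hLx, map_zero]
    simp
  have hVx : (inner ℝ V x : ℝ) = 0 := by rw [real_inner_comm]; exact hxV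
  have hxx : (inner ℝ x x : ℝ) = 1 := by rw [real_inner_self_eq_norm_sq, hx]; norm_num
  have hLx' : ∀ u, (inner ℝ (L u) x : ℝ) = 0 := fun u => by rw [real_inner_comm]; exact hxL u
  -- the diagonal part
  set T' : W →L[ℝ] W := S + (‖V‖ ^ 2) • (innerSL ℝ x).smulRight x + (innerSL ℝ V).smulRight V with hT'def
  have hT' : ∀ u, T' u = S u + (‖V‖ ^ 2 * inner ℝ x u) • x + (inner ℝ V u : ℝ) • V := by
    intro u
    rw [hT'def]
    simp [smul_smul]
  obtain ⟨b, hb, hdet, hle, heq⟩ := det_rank hSs hpos hx hSx hxV hT'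
  have hS0 : 0 < S.det := by
    refine lt_of_le_of_ne (det_nonneg' L) ?_
    intro h0
    have h1 : LinearMap.det (S : W →ₗ[ℝ] W) = 0 := h0.symm
    rw [LinearMap.det_eq_zero_iff_ker_ne_bot] at h1
    exact h1 (LinearMap.ker_eq_bot.mpr (inj_of_pos hpos))
  have hVb : 0 ≤ (inner ℝ V b : ℝ) := by
    have := hpos b
    rw [hb] at this
    exact le_trans (by positivity) this
  have hT'0 : 0 < T'.det := by
    rw [hdet]
    positivity
  have hT'le : T'.det ≤ (1 + ‖V‖ ^ 2) ^ 2 * S.det := by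
    rw [hdet]
    have h1 : (1 + ‖V‖ ^ 2) * (1 + inner ℝ V b) ≤ (1 + ‖V‖ ^ 2) ^ 2 := by
      have h2 : (1 + ‖V‖ ^ 2) ^ 2 = (1 + ‖V‖ ^ 2) * (1 + ‖V‖ ^ 2) := sq _
      rw [h2]
      apply mul_le_mul_of_nonneg_left _ (by positivity)
      linarith
    calc S.det * ((1 + ‖V‖ ^ 2) * (1 + inner ℝ V b)) ≤ S.det * (1 + ‖V‖ ^ 2) ^ 2 :=
          mul_le_mul_of_nonneg_left h1 hS0.le
      _ = _ := mul_comm _ _
  have hT's : ∀ u v, (inner ℝ (T' u) v : ℝ) = inner ℝ u (T' v) := by
    intro u v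
    rw [hT', hT']
    simp only [inner_add_left, inner_add_right, inner_smul_left, inner_smul_right, conj_trivial, hSs u v,
      real_inner_comm x u, real_inner_comm V u]
    rw [real_inner_comm u x, real_inner_comm u V]
    ring
  have hT'pos : ∀ u, ‖u‖ ^ 2 ≤ (inner ℝ (T' u) u : ℝ) := by
    intro u
    rw [hT']
    simp only [inner_add_left, inner_smul_left, conj_trivial]
    nlinarith [hpos u, sq_nonneg (inner ℝ x u : ℝ), sq_nonneg (inner ℝ V u : ℝ),
      mul_nonneg (sq_nonneg ‖V‖) (sq_nonneg (inner ℝ x u : ℝ))]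
  set w : W := L.adjoint V with hw
  have hwu : ∀ u, (inner ℝ w u : ℝ) = inner ℝ V (L u) := fun u => ContinuousLinearMap.adjoint_inner_left L u V
  have hxw : (inner ℝ x w : ℝ) = 0 := by
    rw [real_inner_comm, hwu, hLx, inner_zero_right]
  have hT'x : T' x = (1 + ‖V‖ ^ 2) • x := by
    rw [hT', hSx, hxx, hVx]
    module
  have hT : ∀ u, (ContinuousLinearMap.id ℝ W + A.adjoint ∘L A) u =
      T' u + (inner ℝ x u : ℝ) • w + (inner ℝ w u : ℝ) • x := by
    intro u
    refine ext_inner_right ℝ fun v => ?_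
    rw [ContinuousLinearMap.add_apply, inner_add_left, ContinuousLinearMap.id_apply,
      ContinuousLinearMap.comp_apply, ContinuousLinearMap.adjoint_inner_left, hT', inner_add_left,
      inner_add_left, inner_add_left, inner_add_left, hSi, hA, hA]
    simp only [inner_add_left, inner_add_right, inner_sub_left, inner_sub_right, inner_smul_left,
      inner_smul_right, conj_trivial, hxV, hVx, hxx, hxL, hLx', real_inner_self_eq_norm_sq, hwu]
    rw [real_inner_comm V (L u)]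
    ring
  obtain ⟨c1, c2⟩ := det_cross hT's hT'pos (by positivity) hxx hT'x hxw hT hT'0
  refine ⟨c1.trans hT'le, fun hh u => ?_⟩
  have h3 := c2 (hT'le.trans hh)
  rw [← hwu, h3, inner_zero_left]

end Pool.Agent.Y815.HF
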