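import Pool.Agent.Helper82.Fld
import Pool.Agent.Y815.HF.Det

/-!
Library Y815.HF (helper815): vector fields of variable length on the unit sphere, equivariant under
an isometry for which the area inequality holds.
-/

set_option autoImplicit false
set_option linter.deprecated false

namespace Pool.Agent.Y815.HF

open MeasureTheory Set Filter Topology Metric
open Pool.Agent.Helper82
open Pool.Agent.Helper82.Hf (E gr gr_apply gr_adj gr_fderiv gr_contDiffAt
  Vt Zt La dn nrm Vt_zero Vt_unit Vt_hom star_apply La_x x_La dn_nonneg dn_cont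
  sqrt_pow Lin skew isom)
open Pool.Agent.Helper82.Fld (gg gg_apply gg_pow gg_one)

variable {d : ℕ}

/-- vector field on the unit sphere, equivariant under `g` -/
structure UV (g : E d ≃ₗᵢ[ℝ] E d) (V : E d → E d) : Prop where
  smooth : ∀ x, ‖x‖ = 1 → ContDiffAt ℝ 1 V x
  tan : ∀ x, ‖x‖ = 1 → (inner ℝ x (V x) : ℝ) = 0
  equi : ∀ x, ‖x‖ = 1 → V (g x) = g (V x)

variable {g : E d ≃ₗᵢ[ℝ] E d} {V : E d → E d}

theorem Vt_tan (h : UV g V) (y : E d) : (inner ℝ y (Vt V y) : ℝ) = 0 := by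
  by_cases hy : y = 0
  · rw [hy]; simp
  · have h1 := h.tan _ (nrm hy)
    unfold Vt
    rw [inner_smul_left] at h1
    rw [inner_smul_right]
    have h2 : ‖y‖ ≠ 0 := norm_ne_zero_iff.mpr hy
    have h3 : (‖y‖⁻¹ : ℝ) ≠ 0 := inv_ne_zero h2
    simp only [conj_trivial, mul_eq_zero, h3, false_or] at h1
    rw [h1, mul_zero]

theorem Vt_equi (h : UV g V) (y : E d) : Vt V (g y) = g (Vt V y) := by
  by_cases hy : y = 0
  · rw [hy, map_zero, Vt_zero, map_zero]
  · unfold Vt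
    rw [g.norm_map, ← map_smul, h.equi _ (nrm hy), ← map_smul]

theorem Vt_smooth (h : UV g V) {y : E d} (hy : y ≠ 0) : ContDiffAt ℝ 1 (Vt V) y := by
  unfold Vt
  have h1 : ContDiffAt ℝ 1 (fun y : E d => ‖y‖) y := contDiffAt_norm ℝ hy
  have h2 : ContDiffAt ℝ 1 (fun y : E d => ‖y‖⁻¹ • y) y :=
    (h1.inv (norm_ne_zero_iff.mpr hy)).smul contDiffAt_id
  exact h1.smul (ContDiffAt.comp y (h.smooth _ (nrm hy)) h2)

theorem Zt_fderiv (h : UV g V) {y : E d} (hy : y ≠ 0) : fderiv ℝ (Zt V) y = gr (fderiv ℝ (Vt V) y) := by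
  have h1 : HasFDerivAt (Vt V) (fderiv ℝ (Vt V) y) y :=
    ((Vt_smooth h hy).differentiableAt (by norm_num)).hasFDerivAt
  exact gr_fderiv h1

theorem Vt_deriv (h : UV g V) {x : E d} (hx : ‖x‖ = 1) (u : E d) :
    fderiv ℝ (Vt V) x u = La V x u + (inner ℝ x u : ℝ) • V x - (inner ℝ (V x) u : ℝ) • x := by
  have hx0 : x ≠ 0 := by
    intro hh; rw [hh, norm_zero] at hx; norm_num at hx
  have hxx : (inner ℝ x x : ℝ) = 1 := by rw [real_inner_self_eq_norm_sq, hx]; norm_num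
  have hVd : HasFDerivAt V (fderiv ℝ V x) x := ((h.smooth x hx).differentiableAt (by norm_num)).hasFDerivAt
  have hVtd : HasFDerivAt (Vt V) (fderiv ℝ (Vt V) x) x :=
    ((Vt_smooth h hx0).differentiableAt (by norm_num)).hasFDerivAt
  -- derivative of the norm
  have hN : HasFDerivAt (fun y : E d => ‖y‖) (innerSL ℝ x) x := by
    have h1 : HasFDerivAt (fun y : E d => ‖y‖ ^ 2) (2 • innerSL ℝ x) x := by
      exact (hasStrictFDerivAt_norm_sq x).hasFDerivAt
    have h2 : HasFDerivAt (fun y : E d => Real.sqrt (‖y‖ ^ 2)) ((1 / (2 * Real.sqrt (‖x‖ ^ 2))) • (2 • innerSL ℝ x)) x :=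
      h1.sqrt (by rw [hx]; norm_num)
    have h3 : (fun y : E d => Real.sqrt (‖y‖ ^ 2)) = fun y : E d => ‖y‖ := by
      funext y; exact Real.sqrt_sq (norm_nonneg _)
    rw [h3] at h2
    refine h2.congr_fderiv ?_
    rw [hx]
    ext v
    simp
  have hI : HasFDerivAt (fun y : E d => ‖y‖⁻¹) (-(innerSL ℝ x)) x := by
    have h1 := (hasDerivAt_inv (x := ‖x‖) (by rw [hx]; norm_num)).comp_hasFDerivAt x hN
    refine h1.congr_fderiv ?_
    rw [hx]; ext v; simp
  have hU : HasFDerivAt (fun y : E d => ‖y‖⁻¹ • y) (ContinuousLinearMap.id ℝ (E d) - (innerSL ℝ x).smulRight x) x := by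
    have h1 := hI.smul (hasFDerivAt_id x)
    refine h1.congr_fderiv ?_
    ext v
    simp [hx]
    ring
  have hVU : HasFDerivAt (fun y : E d => V (‖y‖⁻¹ • y))
      ((fderiv ℝ V x).comp (ContinuousLinearMap.id ℝ (E d) - (innerSL ℝ x).smulRight x)) x := by
    have h1 : HasFDerivAt V (fderiv ℝ V x) (‖x‖⁻¹ • x) := by rw [hx]; simpa using hVd
    exact HasFDerivAt.comp (g := V) x h1 hU
  have hall := hN.smul hVU
  have e1 := hVtd.unique hall
  have e2 : fderiv ℝ (Vt V) x u = (fderiv ℝ V x) (u - (inner ℝ x u : ℝ) • x) + (inner ℝ x u : ℝ) • V x := by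
    rw [e1]
    simp [hx]
  -- tangency
  have t1 : HasFDerivAt (fun y : E d => (inner ℝ y (Vt V y) : ℝ))
      ((fderivInnerCLM ℝ (x, Vt V x)).comp ((ContinuousLinearMap.id ℝ (E d)).prod (fderiv ℝ (Vt V) x))) x :=
    (hasFDerivAt_id x).inner ℝ hVtd
  have t2 : (fun y : E d => (inner ℝ y (Vt V y) : ℝ)) = fun _ => 0 := funext (Vt_tan h)
  rw [t2] at t1
  have t3 := t1.unique (hasFDerivAt_const (0:ℝ) x)
  have t4 : (inner ℝ x (fderiv ℝ (Vt V) x u) : ℝ) + inner ℝ u (V x) = 0 := by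
    have := congrArg (fun L => L u) t3
    simpa [fderivInnerCLM_apply, Vt_unit hx] using this
  have e3 : La V x u = fderiv ℝ V x (u - (inner ℝ x u : ℝ) • x) -
      (inner ℝ x (fderiv ℝ V x (u - (inner ℝ x u : ℝ) • x)) : ℝ) • x := by
    unfold La
    rw [ContinuousLinearMap.comp_apply, ContinuousLinearMap.comp_apply, star_apply hx, star_apply hx]
  rw [e2, inner_add_right, inner_smul_right, h.tan x hx, mul_zero, add_zero] at t4
  have t5 : (inner ℝ x (fderiv ℝ V x (u - (inner ℝ x u : ℝ) • x)) : ℝ) = - inner ℝ (V x) u := by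
    rw [real_inner_comm (V x) u] at t4
    linarith
  rw [e2, e3, t5]
  module

theorem Zt_equi (h : UV g V) (y : E d) : Zt V (g y) = gg g (Zt V y) := by
  rw [gg_apply]
  unfold Zt
  rw [Vt_equi h]
  rfl

theorem Zt_HM (h : UV g V) : Rig.HM (Zt V) where
  hom := by
    intro t ht y
    unfold Zt
    rw [Vt_hom ht]; rfl
  ne := by
    intro y hy h0
    exact hy (congrArg (fun z : WithLp 2 (E d × E d) => z.fst) h0)
  diff := by
    intro y hy
    exact gr_contDiffAt (Vt_smooth h hy)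

theorem Zt_norm_sq (V : E d → E d) {x : E d} (hx : ‖x‖ = 1) : ‖Zt V x‖ ^ 2 = 1 + ‖V x‖ ^ 2 := by
  unfold Zt
  rw [WithLp.prod_norm_sq_eq_of_L2]
  show ‖x‖ ^ 2 + ‖Vt V x‖ ^ 2 = _
  rw [hx, Vt_unit hx, one_pow]

theorem Ja_le (h : UV g V) {x : E d} (hx : ‖x‖ = 1) :
    Rig.Ja (Zt V) x ≤ (1 + ‖V x‖ ^ 2) * dn V x ∧
    ((1 + ‖V x‖ ^ 2) * dn V x ≤ Rig.Ja (Zt V) x → ∀ u, (inner ℝ (V x) (La V x u) : ℝ) = 0) := by
  have hx0 : x ≠ 0 := by
    intro hh; rw [hh, norm_zero] at hx; norm_num at hx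
  unfold Rig.Ja
  rw [Rig.normDet_eq_sqrt, Zt_fderiv h hx0, gr_adj]
  obtain ⟨h1, h2⟩ := det_compare' (A := fderiv ℝ (Vt V) x) (L := La V x) hx (h.tan x hx) (Vt_deriv h hx)
    (La_x hx) (x_La hx)
  have e1 : (1 + ‖V x‖ ^ 2) * dn V x = Real.sqrt ((1 + ‖V x‖ ^ 2) ^ 2 *
      (ContinuousLinearMap.id ℝ (E d) + (La V x).adjoint ∘L La V x).det) := by
    rw [Real.sqrt_mul (by positivity), Real.sqrt_sq (by positivity)]
    rfl
  refine ⟨?_, fun hle => ?_⟩
  · rw [e1]
    exact Real.sqrt_le_sqrt h1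
  · apply h2
    rw [e1] at hle
    exact (Real.sqrt_le_sqrt_iff (Hf.det_nonneg' _)).mp hle

section main
variable {m : ℕ} {g : E (2 * m + 1 + 1) ≃ₗᵢ[ℝ] E (2 * m + 1 + 1)} {V : E (2 * m + 1 + 1) → E (2 * m + 1 + 1)}

/-- the weighted density -/
noncomputable def wd (m : ℕ) (V : E (2 * m + 1 + 1) → E (2 * m + 1 + 1)) (x : E (2 * m + 1 + 1)) : ℝ :=
  dn V x / (1 + ‖V x‖ ^ 2) ^ m

theorem wd_cont (hV : ∀ x, ‖x‖ = 1 → ContDiffAt ℝ 1 V x) :
    Continuous fun x : sphere (0 : E (2 * m + 1 + 1)) 1 => wd m V x := by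
  unfold wd
  refine (dn_cont hV).div ?_ ?_
  · have h3 : Continuous fun x : sphere (0 : E (2 * m + 1 + 1)) 1 => V x := by
      rw [continuous_iff_continuousAt]
      intro x
      have hx : ‖(x : E (2 * m + 1 + 1))‖ = 1 := by simp
      exact ((hV x hx).continuousAt).comp continuousAt_subtype_val
    exact (continuous_const.add (h3.norm.pow 2)).pow m
  · intro x
    positivity

theorem wt_le (h : UV g V) {x : E (2 * m + 1 + 1)} (hx : ‖x‖ = 1) :
    Rig.wt (Zt V) x ≤ wd m V x ∧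
    (wd m V x ≤ Rig.wt (Zt V) x → ∀ u, (inner ℝ (V x) (La V x u) : ℝ) = 0) := by
  obtain ⟨h1, h2⟩ := Ja_le h hx
  have hp : 0 < 1 + ‖V x‖ ^ 2 := by positivity
  have e1 : ‖Zt V x‖ ^ (Module.finrank ℝ (E (2 * m + 1 + 1))) = (1 + ‖V x‖ ^ 2) * (1 + ‖V x‖ ^ 2) ^ m := by
    have e0 : ∀ a : ℝ, a ^ (2 * m + 1 + 1) = a ^ 2 * (a ^ 2) ^ m := by
      intro a
      rw [← pow_mul, ← pow_add]
      congr 1
      ring
    rw [finrank_euclideanSpace_fin, e0, Zt_norm_sq V hx]
  have e2 : Rig.wt (Zt V) x = (Rig.Ja (Zt V) x / (1 + ‖V x‖ ^ 2)) / (1 + ‖V x‖ ^ 2) ^ m := by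
    unfold Rig.wt
    rw [e1, div_div]
  have hpm : 0 < (1 + ‖V x‖ ^ 2) ^ m := by positivity
  rw [e2]
  unfold wd
  refine ⟨?_, fun hle => ?_⟩
  · rw [div_le_div_iff_of_pos_right hpm, div_le_iff₀ hp, mul_comm (dn V x)]
    exact h1
  · apply h2
    rw [div_le_div_iff_of_pos_right hpm, le_div_iff₀ hp, mul_comm (dn V x)] at hle
    exact hle

theorem sphere_ge (h : UV g V) (hA : Rig.AreaBound g (gg g)) {p : ℕ} (hp : 0 < p) (hgp : g ^ p = 1) :
    (volume : Measure (E (2 * m + 1 + 1))).toSphere.real univ ≤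
      ∫ x : sphere (0 : E (2 * m + 1 + 1)) 1, wd m V x ∂(volume : Measure (E (2 * m + 1 + 1))).toSphere ∧
    ((∫ x : sphere (0 : E (2 * m + 1 + 1)) 1, wd m V x ∂(volume : Measure (E (2 * m + 1 + 1))).toSphere) =
      (volume : Measure (E (2 * m + 1 + 1))).toSphere.real univ ↔ ∃ r : ℝ, 0 ≤ r ∧ Lin V r) := by
  set σ := (volume : Measure (E (2 * m + 1 + 1))).toSphere with hσ
  have hnt : Nontrivial (E (2 * m + 1 + 1)) := Module.nontrivial_of_finrank_pos (R := ℝ) (by simp)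
  have hHM := Zt_HM h
  have hs := hA.sphere hHM (Zt_equi h)
  have hwc : Continuous fun x : sphere (0 : E (2 * m + 1 + 1)) 1 => Rig.wt (Zt V) (x : E (2 * m + 1 + 1)) :=
    Rig.cont_sphere fun x hx => hHM.wt_cont hx
  have hi1 : Integrable (fun x : sphere (0 : E (2 * m + 1 + 1)) 1 => Rig.wt (Zt V) (x : E (2 * m + 1 + 1))) σ :=
    Rig.int_sphere fun x hx => hHM.wt_cont hx
  have hi2 : Integrable (fun x : sphere (0 : E (2 * m + 1 + 1)) 1 => wd m V x) σ :=
    (wd_cont h.smooth).integrable_of_hasCompactSupport (HasCompactSupport.of_compactSpace _)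
  have hw : ∀ x : sphere (0 : E (2 * m + 1 + 1)) 1, Rig.wt (Zt V) x ≤ wd m V x := fun x =>
    (wt_le h (by simp)).1
  have h1 := integral_mono hi1 hi2 hw
  refine ⟨hs.trans h1, fun he => ?_, ?_⟩
  · -- rigidity
    have heq : ∫ x : sphere (0 : E (2 * m + 1 + 1)) 1, Rig.wt (Zt V) x ∂σ ≤ σ.real univ := h1.trans he.le
    have hinj : ∀ x, x ≠ 0 → Function.Injective (fderiv ℝ (Zt V) x) := by
      intro x hx
      rw [Zt_fderiv h hx]
      intro u v huv
      rw [gr_apply, gr_apply] at huv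
      exact congrArg (fun z : WithLp 2 (E (2 * m + 1 + 1) × E (2 * m + 1 + 1)) => z.fst) huv
    have hl : ∀ a y : E (2 * m + 1 + 1), a ≠ 0 → y ≠ 0 → fderiv ℝ (Vt V) y a = Vt V a := by
      intro a y ha hy
      obtain ⟨v, hv⟩ := Rig.rigid hA (by rw [finrank_euclideanSpace_fin]; omega) hHM (Zt_equi h) hinj heq hp
        (by rw [← gg_pow, hgp, gg_one]) ha hy
      rw [Zt_fderiv h hy, gr_apply] at hv
      have e1 : v = a := congrArg (fun z : WithLp 2 (E (2 * m + 1 + 1) × E (2 * m + 1 + 1)) => z.fst) hv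
      have e2 : fderiv ℝ (Vt V) y v = Vt V a :=
        congrArg (fun z : WithLp 2 (E (2 * m + 1 + 1) × E (2 * m + 1 + 1)) => z.snd) hv
      rwa [e1] at e2
    -- the linear map
    set e : E (2 * m + 1 + 1) := EuclideanSpace.single 0 1 with hedef
    have hen : ‖e‖ = 1 := by rw [hedef]; simp
    have he0 : e ≠ 0 := by
      intro hh
      rw [hh, norm_zero] at hen
      norm_num at hen
    set J := fderiv ℝ (Vt V) e with hJ
    have hJV : ∀ x, J x = Vt V x := by
      intro x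
      by_cases hx : x = 0
      · rw [hx, map_zero, Vt_zero]
      · exact hl x e hx he0
    have hJd : ∀ y, y ≠ 0 → fderiv ℝ (Vt V) y = J := by
      intro y hy
      refine ContinuousLinearMap.ext fun a => ?_
      by_cases ha : a = 0
      · rw [ha, map_zero, map_zero]
      · rw [hl a y ha hy, hJV]
    -- pointwise equality
    have hpt : ∀ x : sphere (0 : E (2 * m + 1 + 1)) 1, Rig.wt (Zt V) (x : E (2 * m + 1 + 1)) = wd m V x := by
      have h5 : ∫ x : sphere (0 : E (2 * m + 1 + 1)) 1, Rig.wt (Zt V) (x : E (2 * m + 1 + 1)) ∂σ =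
          ∫ x : sphere (0 : E (2 * m + 1 + 1)) 1, wd m V x ∂σ :=
        le_antisymm h1 (he.le.trans hs)
      have h6 := (integral_eq_iff_of_ae_le hi1 hi2 (Filter.Eventually.of_forall hw)).mp h5
      have h7 := (Continuous.ae_eq_iff_eq σ hwc (wd_cont h.smooth)).mp h6
      exact fun x => congrFun h7 x
    have horth : ∀ x u : E (2 * m + 1 + 1), ‖x‖ = 1 → (inner ℝ x u : ℝ) = 0 →
        (inner ℝ (J x) (J u) : ℝ) = 0 := by
      intro x u hx hxu
      have hx0 : x ≠ 0 := by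
        intro hh; rw [hh, norm_zero] at hx; norm_num at hx
      have h8 := (wt_le h hx).2 (hpt ⟨x, by simpa using hx⟩).ge u
      have h9 := Vt_deriv h hx u
      rw [hJd x hx0, hxu, zero_smul, add_zero] at h9
      have h10 : (inner ℝ (V x) x : ℝ) = 0 := by rw [real_inner_comm]; exact h.tan x hx
      rw [hJV x, Vt_unit hx, h9, inner_sub_right, inner_smul_right, h8, h10, mul_zero, sub_zero]
    have horth' : ∀ x u : E (2 * m + 1 + 1), (inner ℝ x u : ℝ) = 0 → (inner ℝ (J x) (J u) : ℝ) = 0 := by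
      intro x u hxu
      by_cases hx : x = 0
      · rw [hx, map_zero, inner_zero_left]
      · have h8 := horth (‖x‖⁻¹ • x) u (nrm hx) (by rw [inner_smul_left, hxu, mul_zero])
        rw [map_smul, inner_smul_left] at h8
        simpa [norm_ne_zero_iff.mpr hx] using h8
    have hunit : ∀ x, ‖x‖ = 1 → ‖J x‖ = ‖J e‖ := by
      intro x hx
      have h8 := horth' (x - e) (x + e) (by
        rw [inner_add_right, inner_sub_left, inner_sub_left, real_inner_self_eq_norm_sq,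
          real_inner_self_eq_norm_sq, hx, hen, real_inner_comm x e]
        ring)
      rw [map_sub, map_add, inner_add_right, inner_sub_left, inner_sub_left, real_inner_self_eq_norm_sq,
        real_inner_self_eq_norm_sq, real_inner_comm (J x) (J e)] at h8
      have h9 : ‖J x‖ ^ 2 = ‖J e‖ ^ 2 := by linarith
      exact (sq_eq_sq₀ (norm_nonneg _) (norm_nonneg _)).mp h9
    refine ⟨‖J e‖, norm_nonneg _, J, fun x => ?_, fun x => ?_, fun x hx => ?_⟩
    · rw [hJV]; exact Vt_tan h x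
    · by_cases hx : x = 0
      · rw [hx, map_zero, norm_zero, mul_zero]
      · have h8 := hunit _ (nrm hx)
        rw [map_smul, norm_smul, norm_inv, norm_norm, inv_mul_eq_iff_eq_mul₀ (norm_ne_zero_iff.mpr hx)] at h8
        rw [h8, mul_comm]
    · rw [hJV, Vt_unit hx]
  · rintro ⟨r, hr, hl⟩
    have hlen : ∀ x, ‖x‖ = 1 → ‖V x‖ = r := by
      obtain ⟨J, h1, h2, h3⟩ := hl
      intro x hx
      rw [h3 x hx, h2, hx, mul_one]
    have hUG : Fld.UG g V r := ⟨hr, h.smooth, h.tan, hlen, h.equi⟩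
    have h1 : ∀ x : sphere (0 : E (2 * m + 1 + 1)) 1, wd m V x = 1 := by
      intro x
      have hx : ‖(x : E (2 * m + 1 + 1))‖ = 1 := by simp
      have h2 := Fld.lin_dn hUG hl (x := (x : E (2 * m + 1 + 1))) hx
      have h3 : (1 + r ^ 2) ^ (2 * m + 1 + 1) = (1 + r ^ 2) ^ 2 * ((1 + r ^ 2) ^ m) ^ 2 := by
        rw [← pow_mul, ← pow_add]; congr 1; ring
      rw [h3] at h2
      have h4 := mul_left_cancel₀ (by positivity) h2
      have h5 : 0 < (1 + r ^ 2) ^ m := by positivity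
      have h6 : dn V x = (1 + r ^ 2) ^ m := by
        rw [← Real.sqrt_sq (dn_nonneg (V := V) (x : E (2 * m + 1 + 1))), h4, Real.sqrt_sq h5.le]
      unfold wd
      rw [h6, hlen _ hx, div_self h5.ne']
    rw [integral_congr_ae (Filter.Eventually.of_forall h1), integral_const, smul_eq_mul, mul_one]

end main

end Pool.Agent.Y815.HF
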