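import Pool.Agent.Helper82.Hf10
import Pool.Agent.Helper82.Fld

/-!
Library Y815.HF (helper815): the area inequality for the antipodal map, for cones which need not
have constant norm on the unit sphere.
-/

set_option autoImplicit false
set_option linter.deprecated false

namespace Pool.Agent.Y815.HF

open MeasureTheory Set Filter Topology Metric
open Pool.Agent.Helper82
open Pool.Agent.Helper82.Hf (E OH good_ae)

variable {k : ℕ} {F : Type} [NormedAddCommGroup F] [InnerProductSpace ℝ F] [FiniteDimensional ℝ F]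

/-- ratio of norms -/
noncomputable def sc (Z : E (k + 1) → F) (y : E (k + 1)) : ℝ := ‖y‖ / ‖Z y‖

/-- the normalised map -/
noncomputable def nz (Z : E (k + 1) → F) (y : E (k + 1)) : F := sc Z y • Z y

variable {Z : E (k + 1) → F}

theorem sc_pos (h : Rig.HM Z) {y : E (k + 1)} (hy : y ≠ 0) : 0 < sc Z y :=
  div_pos (norm_pos_iff.mpr hy) (norm_pos_iff.mpr (h.ne y hy))

theorem sc_hom (h : Rig.HM Z) {t : ℝ} (ht : 0 < t) (y : E (k + 1)) : sc Z (t • y) = sc Z y := by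
  unfold sc
  rw [h.hom t ht, norm_smul, norm_smul, mul_div_mul_left _ _ (norm_ne_zero_iff.mpr ht.ne')]

theorem sc_smooth (h : Rig.HM Z) {y : E (k + 1)} (hy : y ≠ 0) : ContDiffAt ℝ 1 (sc Z) y := by
  have h1 : ContDiffAt ℝ 1 (fun y : E (k + 1) => ‖y‖) y := contDiffAt_norm ℝ hy
  have h2 : ContDiffAt ℝ 1 (fun y : E (k + 1) => ‖Z y‖) y := (h.diff y hy).norm ℝ (h.ne y hy)
  exact h1.div h2 (norm_ne_zero_iff.mpr (h.ne y hy))

theorem sc_deriv (h : Rig.HM Z) {y : E (k + 1)} (hy : y ≠ 0) :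
    HasFDerivAt (sc Z) (fderiv ℝ (sc Z) y) y :=
  ((sc_smooth h hy).differentiableAt (by norm_num)).hasFDerivAt

theorem sc_euler (h : Rig.HM Z) {y : E (k + 1)} (hy : y ≠ 0) : fderiv ℝ (sc Z) y y = 0 := by
  have h1 : HasDerivAt (fun t : ℝ => sc Z (t • y)) (fderiv ℝ (sc Z) y y) 1 := by
    have h2 : HasDerivAt (fun t : ℝ => t • y) y 1 := by
      simpa using (hasDerivAt_id (1:ℝ)).smul_const y
    have h3 : HasFDerivAt (sc Z) (fderiv ℝ (sc Z) y) ((1:ℝ) • y) := by rw [one_smul]; exact sc_deriv h hy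
    exact h3.comp_hasDerivAt (1:ℝ) h2
  have h5 : (fun t : ℝ => sc Z (t • y)) =ᶠ[𝓝 1] fun _ : ℝ => sc Z y := by
    filter_upwards [Ioi_mem_nhds (show (0:ℝ) < 1 by norm_num)] with t ht
    exact sc_hom h ht y
  exact (h1.congr_of_eventuallyEq h5.symm).unique (hasDerivAt_const (1:ℝ) (sc Z y))

theorem nz_OH (h : Rig.HM Z) (hodd : ∀ y, Z (-y) = -Z y) : OH (nz Z) 1 where
  hR := one_pos
  smooth y hy := (sc_smooth h hy).smul (h.diff y hy)
  odd y := by
    unfold nz sc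
    rw [hodd, norm_neg, norm_neg, smul_neg]
  hom t ht y := by
    unfold nz
    rw [sc_hom h ht, h.hom t ht, smul_comm]
  norm y := by
    by_cases hy : y = 0
    · rw [hy]; unfold nz sc; simp
    · unfold nz
      rw [norm_smul, Real.norm_eq_abs, abs_of_pos (sc_pos h hy)]
      unfold sc
      rw [div_mul_cancel₀ _ (norm_ne_zero_iff.mpr (h.ne y hy)), one_mul]

theorem normDet_comp' (T : E (k + 1) →L[ℝ] F) (S : E (k + 1) →L[ℝ] E (k + 1)) :
    ((T.comp S : E (k + 1) →L[ℝ] F) : E (k + 1) →ₗ[ℝ] F).normDet =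
      |S.det| * (T : E (k + 1) →ₗ[ℝ] F).normDet := by
  have h1 := (T.comp S).normDet_sq
  have h2 := T.normDet_sq
  have h3 := S.normDet_sq
  have h4 : (S : E (k + 1) →ₗ[ℝ] E (k + 1)).normDet = |S.det| :=
    LinearMap.normDet_eq_abs_det (S : E (k + 1) →ₗ[ℝ] E (k + 1))
  have h5 : ((T.comp S).adjoint ∘L (T.comp S)).det = (S.adjoint ∘L S).det * (T.adjoint ∘L T).det := by
    have e1 : (T.comp S).adjoint ∘L (T.comp S) = S.adjoint ∘L ((T.adjoint ∘L T) ∘L S) := by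
      rw [ContinuousLinearMap.adjoint_comp]
      rfl
    rw [e1]
    simp only [ContinuousLinearMap.det, ContinuousLinearMap.toLinearMap_comp, LinearMap.det_comp]
    have e2 : LinearMap.det ((T.adjoint : F →ₗ[ℝ] E (k + 1)) ∘ₗ (T : E (k + 1) →ₗ[ℝ] F)) =
      LinearMap.det ((T.adjoint : F →ₗ[ℝ] E (k + 1)) ∘ₗ (T : E (k + 1) →ₗ[ℝ] F)) := rfl
    ring
  have h6 : (((T.comp S : E (k + 1) →L[ℝ] F) : E (k + 1) →ₗ[ℝ] F).normDet) ^ 2 =
      (|S.det| * (T : E (k + 1) →ₗ[ℝ] F).normDet) ^ 2 := by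
    rw [mul_pow, ← h4]
    have a1 : (((T.comp S : E (k + 1) →L[ℝ] F) : E (k + 1) →ₗ[ℝ] F).normDet) ^ 2 =
      ((T.comp S).adjoint ∘L (T.comp S)).det := by simpa using h1
    have a2 : ((T : E (k + 1) →ₗ[ℝ] F).normDet) ^ 2 = (T.adjoint ∘L T).det := by simpa using h2
    have a3 : ((S : E (k + 1) →ₗ[ℝ] E (k + 1)).normDet) ^ 2 = (S.adjoint ∘L S).det := by simpa using h3
    rw [a1, a2, a3, h5]
  exact (sq_eq_sq₀ (LinearMap.normDet_nonneg _) (mul_nonneg (abs_nonneg _) (LinearMap.normDet_nonneg _))).1 h6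

theorem nz_jac (h : Rig.HM Z) {y : E (k + 1)} (hy : y ≠ 0) :
    (fderiv ℝ (nz Z) y : E (k + 1) →ₗ[ℝ] F).normDet =
      sc Z y ^ (k + 1) * (fderiv ℝ Z y : E (k + 1) →ₗ[ℝ] F).normDet := by
  have hs := sc_pos h hy
  have h1 : HasFDerivAt (nz Z) (sc Z y • fderiv ℝ Z y + (fderiv ℝ (sc Z) y).smulRight (Z y)) y :=
    (sc_deriv h hy).smul (h.hd hy)
  set S : E (k + 1) →L[ℝ] E (k + 1) := sc Z y • (ContinuousLinearMap.id ℝ (E (k + 1)) +
    (fderiv ℝ (sc Z) y).smulRight ((sc Z y)⁻¹ • y)) with hS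
  have h2 : sc Z y • fderiv ℝ Z y + (fderiv ℝ (sc Z) y).smulRight (Z y) = (fderiv ℝ Z y).comp S := by
    refine ContinuousLinearMap.ext fun v => ?_
    rw [hS]
    simp only [ContinuousLinearMap.add_apply, ContinuousLinearMap.smul_apply,
      ContinuousLinearMap.smulRight_apply, ContinuousLinearMap.comp_apply, ContinuousLinearMap.id_apply,
      map_add, map_smul, h.euler hy]
    rw [smul_add, smul_smul (sc Z y), smul_smul (sc Z y * _), mul_comm (sc Z y) (fderiv ℝ (sc Z) y v),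
      mul_assoc, mul_inv_cancel₀ hs.ne', mul_one]
  have h3 : S.det = sc Z y ^ (k + 1) := by
    have e1 : (S : E (k + 1) →ₗ[ℝ] E (k + 1)) =
        sc Z y • LinearMap.transvection (fderiv ℝ (sc Z) y : E (k + 1) →ₗ[ℝ] ℝ) ((sc Z y)⁻¹ • y) := by
      ext v
      rw [hS]
      simp [LinearMap.transvection.apply]
    show LinearMap.det (S : E (k + 1) →ₗ[ℝ] E (k + 1)) = _
    rw [e1, LinearMap.det_smul, LinearMap.transvection.det, finrank_euclideanSpace_fin, map_smul,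
      ContinuousLinearMap.coe_coe, sc_euler h hy, smul_zero, add_zero, mul_one]
  rw [h1.fderiv, h2, normDet_comp', h3, abs_of_pos (pow_pos hs _)]

/-- the area inequality for the antipodal map -/
theorem area_neg (g : E (k + 1) ≃ₗᵢ[ℝ] E (k + 1)) (h : F ≃ₗᵢ[ℝ] F) (hg : ∀ x, g x = -x)
    (hh : ∀ z, h z = -z) (U₀ : E (k + 1) →ₗᵢ[ℝ] F) : Rig.AreaBound g h := by
  intro Z hZ hc he
  have hodd : ∀ y, Z (-y) = - Z y := by
    intro y
    rw [← hg, he, hh]
  have hnt : Nontrivial (E (k + 1)) := Module.nontrivial_of_finrank_pos (R := ℝ) (by simp)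
  let _ : MeasurableSpace F := borel F
  have _ : BorelSpace F := ⟨rfl⟩
  have hOH : OH (nz Z) 1 := nz_OH hZ hodd
  obtain ⟨m1, _⟩ := Hf.main hOH (good_ae hOH) U₀
  rw [one_pow, ENNReal.ofReal_one, one_mul] at m1
  have hJ : ∀ x : sphere (0 : E (k + 1)) 1, Hf.Ja (nz Z) (x : E (k + 1)) = ENNReal.ofReal (Rig.wt Z x) := by
    intro x
    have hx0 : (x : E (k + 1)) ≠ 0 := Rig.sphere_ne x
    unfold Hf.Ja Rig.wt Rig.Ja
    rw [nz_jac hZ hx0, finrank_euclideanSpace_fin]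
    congr 1
    unfold sc
    have : ‖(x : E (k + 1))‖ = 1 := by simp
    rw [this, div_pow, one_pow]
    ring
  rw [lintegral_congr hJ, ← ofReal_integral_eq_lintegral_ofReal (Rig.int_sphere fun x hx => hZ.wt_cont hx)
    (Filter.Eventually.of_forall fun x => Rig.wt_nonneg _)] at m1
  rw [Rig.gauss_id, hZ.area]
  apply ENNReal.ofReal_le_ofReal
  apply mul_le_mul_of_nonneg_left _ (Rig.gk_pos _ _).le
  exact ENNReal.toReal_le_of_le_ofReal (integral_nonneg fun x => Rig.wt_nonneg _) m1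

end Pool.Agent.Y815.HF
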