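import Pool.Agent.Y815.HF.Fld2
import Pool.Agent.Y815.HF.Neg
import Pool.Agent.Helper954.Hopf.AB

/-!
Library Y815.HF (helper815): the inequalities on the unit sphere, for fields that are equivariant
under an isometry of prime order without nonzero fixed vectors.
-/

set_option autoImplicit false
set_option linter.deprecated false

namespace Pool.Agent.Y815.HF

open MeasureTheory Set Filter Topology Metric
open Pool.Agent.Helper82
open Pool.Agent.Helper82.Hf (E U0 dn dn_nonneg dn_cont dn_int Lin)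
open Pool.Agent.Helper82.Fld (gg gg_apply gg_pow gg_one gg_free)

variable {m : ℕ} {g : E (2 * m + 1 + 1) ≃ₗᵢ[ℝ] E (2 * m + 1 + 1)} {V : E (2 * m + 1 + 1) → E (2 * m + 1 + 1)}

/-- the area inequality holds for every isometry of prime order without nonzero fixed vectors -/
theorem area_prime {p : ℕ} (hp : p.Prime) (hgp : g ^ p = 1) (hgf : ∀ x, g x = x → x = 0) :
    Rig.AreaBound g (gg g) := by
  by_cases h2 : p = 2
  · subst h2
    have h3 : ∀ x, g (g x) = x := by
      intro x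
      have h4 : (g ^ 2) x = x := by rw [hgp]; rfl
      rw [sq] at h4
      exact h4
    have h5 : ∀ x, g x = -x := by
      intro x
      have h6 := hgf (g x + x) (by rw [map_add, h3, add_comm x])
      exact eq_neg_of_add_eq_zero_left h6
    refine area_neg g (gg g) h5 ?_ (U0 (E (2 * m + 1 + 1)))
    intro z
    rw [gg_apply, h5, h5]
    rfl
  · have : Fact p.Prime := ⟨hp⟩
    intro Z hZ hc he
    exact Pool.Agent.Helper954.Hopf.AB.area_bound p h2 _ _ hgp
      (by rw [← gg_pow, hgp, gg_one]) hgf (gg_free _ hgf) Z ⟨hc, hZ.hom, hZ.ne, hZ.diff, he⟩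

/-- the density of a linear field -/
theorem dn_lin (h : UV g V) {r : ℝ} (hr : 0 ≤ r) (hl : Lin V r) {x : E (2 * m + 1 + 1)} (hx : ‖x‖ = 1) :
    ‖V x‖ = r ∧ dn V x = (1 + r ^ 2) ^ m := by
  have hlen : ∀ x, ‖x‖ = 1 → ‖V x‖ = r := by
    obtain ⟨J, h1, h2, h3⟩ := hl
    intro x hx
    rw [h3 x hx, h2, hx, mul_one]
  have hUG : Fld.UG g V r := ⟨hr, h.smooth, h.tan, hlen, h.equi⟩
  refine ⟨hlen x hx, ?_⟩
  have h2 := Fld.lin_dn hUG hl hx
  have h3 : (1 + r ^ 2) ^ (2 * m + 1 + 1) = (1 + r ^ 2) ^ 2 * ((1 + r ^ 2) ^ m) ^ 2 := by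
    rw [← pow_mul, ← pow_add]; congr 1; ring
  rw [h3] at h2
  have h4 := mul_left_cancel₀ (by positivity) h2
  have h5 : 0 < (1 + r ^ 2) ^ m := by positivity
  rw [← Real.sqrt_sq (dn_nonneg (V := V) x), h4, Real.sqrt_sq h5.le]

theorem area_pos : 0 < (volume : Measure (E (2 * m + 1 + 1))).toSphere.real univ := by
  have hnt : Nontrivial (E (2 * m + 1 + 1)) := Module.nontrivial_of_finrank_pos (R := ℝ) (by simp)
  rw [measureReal_def]
  apply ENNReal.toReal_pos
  · rw [Measure.toSphere_apply_univ]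
    apply mul_ne_zero
    · simp
    · exact (measure_ball_pos _ _ one_pos).ne'
  · exact measure_ne_top _ _

/-- fields of length at least `s` -/
theorem long (h : UV g V) {p : ℕ} (hp : p.Prime) (hgp : g ^ p = 1) (hgf : ∀ x, g x = x → x = 0)
    {s : ℝ} (hs : 0 ≤ s) (hlen : ∀ x, ‖x‖ = 1 → s ≤ ‖V x‖) :
    (1 + s ^ 2) ^ m * (volume : Measure (E (2 * m + 1 + 1))).toSphere.real univ ≤
      ∫ x : sphere (0 : E (2 * m + 1 + 1)) 1, dn V x ∂(volume : Measure (E (2 * m + 1 + 1))).toSphere ∧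
    ((∫ x : sphere (0 : E (2 * m + 1 + 1)) 1, dn V x ∂(volume : Measure (E (2 * m + 1 + 1))).toSphere) =
      (1 + s ^ 2) ^ m * (volume : Measure (E (2 * m + 1 + 1))).toSphere.real univ →
      ∃ r : ℝ, 0 ≤ r ∧ Lin V r ∧ (1 + r ^ 2) ^ m = (1 + s ^ 2) ^ m) ∧
    (Lin V s → (∫ x : sphere (0 : E (2 * m + 1 + 1)) 1, dn V x ∂(volume : Measure (E (2 * m + 1 + 1))).toSphere) =
      (1 + s ^ 2) ^ m * (volume : Measure (E (2 * m + 1 + 1))).toSphere.real univ) := by
  obtain ⟨a1, a2⟩ := sphere_ge h (area_prime hp hgp hgf) hp.pos hgp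
  set σ := (volume : Measure (E (2 * m + 1 + 1))).toSphere with hσ
  have hps : 0 < (1 + s ^ 2) ^ m := by positivity
  have hi2 : Integrable (fun x : sphere (0 : E (2 * m + 1 + 1)) 1 => wd m V x) σ :=
    (wd_cont h.smooth).integrable_of_hasCompactSupport (HasCompactSupport.of_compactSpace _)
  have hi3 : Integrable (fun x : sphere (0 : E (2 * m + 1 + 1)) 1 => ((1 + s ^ 2) ^ m)⁻¹ * dn V x) σ :=
    (dn_int h.smooth).const_mul _
  have hle : ∫ x : sphere (0 : E (2 * m + 1 + 1)) 1, wd m V x ∂σ ≤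
      ((1 + s ^ 2) ^ m)⁻¹ * ∫ x : sphere (0 : E (2 * m + 1 + 1)) 1, dn V x ∂σ := by
    rw [← integral_const_mul]
    refine integral_mono hi2 hi3 fun x => ?_
    have hx : ‖(x : E (2 * m + 1 + 1))‖ = 1 := by simp
    show wd m V x ≤ ((1 + s ^ 2) ^ m)⁻¹ * dn V x
    unfold wd
    rw [div_eq_inv_mul]
    apply mul_le_mul_of_nonneg_right _ (dn_nonneg _)
    apply inv_anti₀ hps
    apply pow_le_pow_left₀ (by positivity)
    have := hlen _ hx
    nlinarith [norm_nonneg (V (x : E (2 * m + 1 + 1)))]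
  refine ⟨?_, fun he => ?_, fun hl => ?_⟩
  · have h1 := a1.trans hle
    rwa [le_inv_mul_iff₀ hps] at h1
  · have h2 : ∫ x : sphere (0 : E (2 * m + 1 + 1)) 1, wd m V x ∂σ ≤ σ.real univ := by
      rw [he, inv_mul_cancel_left₀ hps.ne'] at hle
      exact hle
    obtain ⟨r, hr, hl⟩ := a2.mp (le_antisymm h2 a1)
    refine ⟨r, hr, hl, ?_⟩
    have h3 : ∀ x : sphere (0 : E (2 * m + 1 + 1)) 1, dn V x = (1 + r ^ 2) ^ m := fun x =>
      (dn_lin h hr hl (by simp)).2
    rw [integral_congr_ae (Filter.Eventually.of_forall h3), integral_const, smul_eq_mul, mul_comm] at he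
    exact mul_right_cancel₀ (area_pos (m := m)).ne' he
  · have h3 : ∀ x : sphere (0 : E (2 * m + 1 + 1)) 1, dn V x = (1 + s ^ 2) ^ m := fun x =>
      (dn_lin h hs hl (by simp)).2
    rw [integral_congr_ae (Filter.Eventually.of_forall h3), integral_const, smul_eq_mul, mul_comm]

/-- the weighted inequality -/
theorem weighted (h : UV g V) {p : ℕ} (hp : p.Prime) (hgp : g ^ p = 1) (hgf : ∀ x, g x = x → x = 0) :
    (volume : Measure (E (2 * m + 1 + 1))).toSphere.real univ ≤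
      ∫ x : sphere (0 : E (2 * m + 1 + 1)) 1, wd m V x ∂(volume : Measure (E (2 * m + 1 + 1))).toSphere ∧
    ((∫ x : sphere (0 : E (2 * m + 1 + 1)) 1, wd m V x ∂(volume : Measure (E (2 * m + 1 + 1))).toSphere) =
      (volume : Measure (E (2 * m + 1 + 1))).toSphere.real univ ↔ ∃ r : ℝ, 0 ≤ r ∧ Lin V r) :=
  sphere_ge h (area_prime hp hgp hgf) hp.pos hgp

end Pool.Agent.Y815.HF
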